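import Pool.Agent.W593.ZT.Stm

/-! Project ZT: subtask ZT-PLR2 (recursion, outcome (ii)). -/

open scoped Classical

set_option autoImplicit false

namespace Pool.Agent.W73.ZT

open Pool.Agent.W593.ZT

theorem two_le_index {G : Type} [AddCommGroup G] [Fintype G] (S : AddSubgroup G) (h : S ≠ ⊤) :
    2 ≤ S.index := by
  have h0 : S.index ≠ 0 := AddSubgroup.index_ne_zero_of_finite
  have h1 : S.index ≠ 1 := fun e => h (AddSubgroup.index_eq_one.1 e)
  omega

theorem two_le_relIndex {G : Type} [AddCommGroup G] [Fintype G] (S T : AddSubgroup G) (h : S < T) :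
    2 ≤ S.relIndex T := by
  have h0 : S.relIndex T ≠ 0 := by
    intro e
    have := AddSubgroup.relIndex_mul_index h.le
    rw [e, zero_mul] at this
    exact AddSubgroup.index_ne_zero_of_finite this.symm
  have h1 : S.relIndex T ≠ 1 := fun e => absurd (AddSubgroup.relIndex_eq_one.1 e) (not_le_of_gt h)
  omega

theorem ncl_pair {G : Type} [AddCommGroup G] (R : AddSubgroup G) (x y : G) (h : y - x ∉ R) :
    1 ≤ ncl R {x, y} - 1 := by
  have : 1 < ncl R {x, y} := by
    unfold ncl
    refine Finset.one_lt_card.2 ⟨(QuotientAddGroup.mk x : G ⧸ R), ?_,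
      (QuotientAddGroup.mk y : G ⧸ R), ?_, ?_⟩
    · exact Finset.mem_image_of_mem _ (by simp)
    · exact Finset.mem_image_of_mem _ (by simp)
    · intro e
      apply h
      have := QuotientAddGroup.eq.1 e
      rwa [neg_add_eq_sub] at this
  omega

theorem plr2 (hK2 : S_K2) (hCOMP : S_COMP) : S_PLR2 := by
  intro V G _ _ c S S1 W H H1 L0 b1 h1 hlt hne hb1 hHH1 hH1W hL0 hL0c hH hh1 he0 hR S' a Hp z0 s old
  have hu1 : 2 ≤ S1.index := two_le_index S1 hne
  have hv : 2 ≤ S'.index := two_le_index S' old.ne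
  have hs0 : 2 ≤ S.relIndex S1 := two_le_relIndex S S1 hlt
  have hu : S.relIndex S1 * S1.index = S.index := AddSubgroup.relIndex_mul_index hlt.le
  -- cardinalities
  have hHp : (Hp \ H).card ≤ (Hp \ H1).card + (H1 \ H).card := by
    refine le_trans (Finset.card_le_card ?_) (Finset.card_union_le _ _)
    intro z hz
    rw [Finset.mem_sdiff] at hz
    rw [Finset.mem_union, Finset.mem_sdiff, Finset.mem_sdiff]
    by_cases hz1 : z ∈ H1
    · exact Or.inr ⟨hz1, hz.2⟩
    · exact Or.inl ⟨hz.1, hz1⟩
  have he1 : (L0.filter (fun z => c z (h1 z) - c z b1 ∉ S1)).card ≤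
      min (nc c S1 W H1).card (S1.index - 1) := by
    refine le_min (Finset.card_le_card ?_) (by omega)
    intro z hz
    rw [Finset.mem_filter] at hz
    unfold nc
    rw [Finset.mem_filter]
    refine ⟨hL0 hz.1, fun ht => hz.2 ?_⟩
    exact ht _ (Finset.mem_image_of_mem _ (hh1 z hz.1)) _
      (Finset.mem_image_of_mem _ (hHH1 hb1))
  have hbx := old.bx
  generalize hf1 : min (nc c S1 W H1).card (S1.index - 1) = f1 at he1 hbx
  have hlev := old.lev
  rw [hf1] at hlev
  have hbxn : (Hp \ H).card + (s + (S.relIndex S1 - 1)) + (wr c S' a W Hp).card +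
      min (nc c S W H).card (S.index - 1) + 4 ≤ 2 * S.index := by
    have h5 : 2 * S1.index + S.relIndex S1 ≤ S.index + 2 := by
      rw [← hu]
      obtain ⟨x, hx⟩ := Nat.exists_eq_add_of_le hs0
      obtain ⟨y, hy⟩ := Nat.exists_eq_add_of_le hu1
      rw [hx, hy]
      nlinarith [Nat.zero_le (x * y), Nat.zero_le x, Nat.zero_le y]
    omega
  refine ⟨s + (S.relIndex S1 - 1), ?_⟩
  refine ⟨hlt.le.trans old.le, old.ne, hHH1.trans old.sub, old.subW, old.z0W, old.z0nc, old.root,
    old.wrb, hbxn, ?_, ?_⟩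
  · -- lv
    intro X hX
    obtain ⟨L', hz', hL's, hL'c, hz'H, hcov⟩ := old.lv X hX
    let A : V → Finset G := fun z => {c z b1, c z (h1 z)}
    let Z : Finset V := L0.filter (fun z => c z (h1 z) - c z b1 ∈ S1 ∧ z ∈ va c S' a W Hp ∧
      z ∉ X ∧ z ∉ L')
    have hZ : ∀ z ∈ Z, z ∈ L0 ∧ c z (h1 z) - c z b1 ∈ S1 ∧ z ∈ va c S' a W Hp ∧ z ∉ X ∧ z ∉ L' :=
      fun z hz => Finset.mem_filter.1 hz
    have hA : ∀ z ∈ Z, (A z).Nonempty ∧ Tc S1 (A z) := by
      intro z hz
      refine ⟨⟨c z b1, by simp [A]⟩, ?_⟩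
      have hd := (hZ z hz).2.1
      intro x hx y hy
      simp only [A, Finset.mem_insert, Finset.mem_singleton] at hx hy
      rcases hx with rfl | rfl <;> rcases hy with rfl | rfl
      · rw [sub_self]
        exact S1.zero_mem
      · rw [← neg_sub]
        exact S1.neg_mem hd
      · exact hd
      · rw [sub_self]
        exact S1.zero_mem
    have hcount : ∀ R : AddSubgroup G, S ≤ R → R < S1 →
        R.relIndex S1 ≤ 1 + ∑ z ∈ Z, (ncl R (A z) - 1) := by
      intro R hSR hRS
      have ht : 2 ≤ R.relIndex S1 := two_le_relIndex R S1 hRS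
      have hti : R.relIndex S1 * S1.index = R.index := AddSubgroup.relIndex_mul_index hRS.le
      have hRc := hR R hSR hRS
      have hsub : L0.filter (fun z => c z (h1 z) - c z b1 ∉ R) ⊆
          ((((Z.filter (fun z => c z (h1 z) - c z b1 ∉ R) ∪
            L0.filter (fun z => c z (h1 z) - c z b1 ∉ S1)) ∪ (Hp \ H1)) ∪ wr c S' a W Hp) ∪ X) ∪
            L' := by
        intro z hz
        rw [Finset.mem_filter] at hz
        simp only [Finset.mem_union]
        by_cases h2 : c z (h1 z) - c z b1 ∈ S1
        · by_cases h3 : z ∈ Hp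
          · left; left; left; right
            rw [Finset.mem_sdiff]
            exact ⟨h3, (Finset.mem_sdiff.1 (hL0 hz.1)).2⟩
          · have h4 : z ∈ W \ Hp := Finset.mem_sdiff.2 ⟨(Finset.mem_sdiff.1 (hL0 hz.1)).1, h3⟩
            by_cases h5 : ∀ h ∈ Hp, c z h - a ∈ S'
            · by_cases h6 : z ∈ X
              · left; right
                exact h6
              · by_cases h7 : z ∈ L'
                · right
                  exact h7
                · left; left; left; left; left
                  refine Finset.mem_filter.2 ⟨Finset.mem_filter.2 ⟨hz.1, h2, ?_, h6, h7⟩, hz.2⟩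
                  exact Finset.mem_filter.2 ⟨h4, h5⟩
            · left; left; right
              exact Finset.mem_filter.2 ⟨h4, h5⟩
        · left; left; left; left; right
          exact Finset.mem_filter.2 ⟨hz.1, h2⟩
      have hcard := Finset.card_le_card hsub
      have hc1 := Finset.card_union_le (((((Z.filter (fun z => c z (h1 z) - c z b1 ∉ R) ∪
            L0.filter (fun z => c z (h1 z) - c z b1 ∉ S1)) ∪ (Hp \ H1)) ∪ wr c S' a W Hp) ∪ X)) L'
      have hc2 := Finset.card_union_le ((((Z.filter (fun z => c z (h1 z) - c z b1 ∉ R) ∪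
            L0.filter (fun z => c z (h1 z) - c z b1 ∉ S1)) ∪ (Hp \ H1)) ∪ wr c S' a W Hp)) X
      have hc3 := Finset.card_union_le (((Z.filter (fun z => c z (h1 z) - c z b1 ∉ R) ∪
            L0.filter (fun z => c z (h1 z) - c z b1 ∉ S1)) ∪ (Hp \ H1))) (wr c S' a W Hp)
      have hc4 := Finset.card_union_le ((Z.filter (fun z => c z (h1 z) - c z b1 ∉ R) ∪
            L0.filter (fun z => c z (h1 z) - c z b1 ∉ S1))) (Hp \ H1)
      have hc5 := Finset.card_union_le (Z.filter (fun z => c z (h1 z) - c z b1 ∉ R))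
            (L0.filter (fun z => c z (h1 z) - c z b1 ∉ S1))
      have hsum : (Z.filter (fun z => c z (h1 z) - c z b1 ∉ R)).card ≤
          ∑ z ∈ Z, (ncl R (A z) - 1) := by
        rw [Finset.card_filter]
        refine Finset.sum_le_sum fun z hz => ?_
        by_cases h2 : c z (h1 z) - c z b1 ∉ R
        · rw [if_pos h2]
          exact ncl_pair R _ _ h2
        · rw [if_neg h2]
          exact Nat.zero_le _
      have harith : R.relIndex S1 + 2 * S1.index ≤ R.index + 2 := by
        rw [← hti]
        obtain ⟨x, hx⟩ := Nat.exists_eq_add_of_le ht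
        obtain ⟨y, hy⟩ := Nat.exists_eq_add_of_le hu1
        rw [hx, hy]
        nlinarith [Nat.zero_le (x * y), Nat.zero_le x, Nat.zero_le y]
      omega
    obtain ⟨Z', hZ'Z, hZ'c, hcov1⟩ := hK2 V G S S1 hlt.le Z A hA hcount
    have hdisj : Disjoint Z' L' := by
      rw [Finset.disjoint_left]
      intro z hz
      exact (hZ z (hZ'Z hz)).2.2.2.2
    have hcomp := hCOMP V G S S1 S' Z' L' A (fun z => {c z b1, c z (hz' z)}) old.le hdisj
      (fun z hz => hA z (hZ'Z hz)) (fun z _ => ⟨c z b1, by simp⟩) hcov1 hcov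
    refine ⟨Z' ∪ L', fun z => if z ∈ Z' then h1 z else hz' z, ?_, ?_, ?_, ?_⟩
    · intro z hz
      rcases Finset.mem_union.1 hz with h2 | h2
      · have := hZ z (hZ'Z h2)
        exact Finset.mem_sdiff.2 ⟨this.2.2.1, this.2.2.2.1⟩
      · exact hL's h2
    · have := Finset.card_union_le Z' L'
      omega
    · intro z hz
      show (if z ∈ Z' then h1 z else hz' z) ∈ Hp
      by_cases h2 : z ∈ Z'
      · rw [if_pos h2]
        exact old.sub (hh1 z (hZ z (hZ'Z h2)).1)
      · rw [if_neg h2]
        rcases Finset.mem_union.1 hz with h3 | h3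
        · exact absurd h3 h2
        · exact hz'H z h3
    · have e : (fun z => if z ∈ Z' then A z else ({c z b1, c z (hz' z)} : Finset G)) =
          (fun z => ({c z b1, c z (if z ∈ Z' then h1 z else hz' z)} : Finset G)) := by
        funext z
        by_cases h2 : z ∈ Z'
        · simp only [if_pos h2, A]
        · simp only [if_neg h2]
      rw [← e]
      exact hcomp
  · -- lev
    have hs1 : 1 ≤ s + (S.relIndex S1 - 1) := by omega
    have h2u : 2 * S1.index ≤ S.index := by
      rw [← hu]
      exact Nat.mul_le_mul_right _ hs0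
    have hs' : s + (S.relIndex S1 - 1) + 1 = s + S.relIndex S1 := by omega
    have hsv : (s + 1) * S'.index ≤ S1.index →
        (s + (S.relIndex S1 - 1) + 1) * S'.index ≤ S.index := by
      intro h2
      rw [hs', ← hu]
      calc (s + S.relIndex S1) * S'.index ≤ (S.relIndex S1 * (s + 1)) * S'.index := by
            refine Nat.mul_le_mul_right _ ?_
            nlinarith [Nat.zero_le s]
        _ = S.relIndex S1 * ((s + 1) * S'.index) := by ring
        _ ≤ S.relIndex S1 * S1.index := Nat.mul_le_mul_left _ h2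
    rcases hlev with ⟨e1, e2, e3⟩ | ⟨e1, e2, e3, e4⟩ | ⟨e1, e2, e3, e4, e5⟩
    · right; left
      subst e1 e2 e3
      refine ⟨hH, ?_, h2u, hs1⟩
      rw [hs', zero_add, hu]
    · right; right
      refine ⟨by omega, ?_, hsv e2, by omega, hs1⟩
      have h5 : S.relIndex S1 * ((s + 1) * S'.index) ≤ S.index := by
        rw [← hu]
        exact Nat.mul_le_mul_left _ e2
      have h6 : 4 * S'.index + 2 * s + 2 * S.relIndex S1 ≤
          S.relIndex S1 * ((s + 1) * S'.index) + 6 := by
        obtain ⟨x, hx⟩ := Nat.exists_eq_add_of_le hs0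
        obtain ⟨y, hy⟩ := Nat.exists_eq_add_of_le hv
        obtain ⟨w, hw⟩ := Nat.exists_eq_add_of_le e4
        rw [hx, hy, hw]
        have e6 : (2 + x) * ((1 + w + 1) * (2 + y)) =
            8 + 4 * y + 4 * w + 2 * w * y + 4 * x + 2 * x * y + 2 * x * w + x * w * y := by ring
        rw [e6]
        have k1 := Nat.zero_le (w * y)
        have k2 := Nat.zero_le (x * y)
        have k3 := Nat.zero_le (x * w)
        have k4 := Nat.zero_le (x * w * y)
        nlinarith
      omega
    · right; right
      refine ⟨by omega, ?_, hsv e3, by omega, hs1⟩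
      have h5 : S1.index + 2 * (S.relIndex S1 - 1) ≤ S.index := by
        rw [← hu]
        obtain ⟨x, hx⟩ := Nat.exists_eq_add_of_le hs0
        obtain ⟨y, hy⟩ := Nat.exists_eq_add_of_le hu1
        have : S.relIndex S1 - 1 = 1 + x := by omega
        rw [this, hx, hy]
        nlinarith [Nat.zero_le (x * y), Nat.zero_le x, Nat.zero_le y]
      omega

end Pool.Agent.W73.ZT
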